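import Pool.Agent.PST.StmtsGE
import Pool.Agent.PST.StmtsDR
import Pool.Agent.PST.Dzw

/-!
# Squad PST, row GNQ: the family over `R⟦X⟧` and its reduction (edit of Helper84_PSS/GEN.lean)
-/

set_option autoImplicit false

open scoped BigOperators TensorProduct PowerSeries

noncomputable section

namespace Pool.Agent.PST.H21

open Pool.Agent.PFC (tw IsTv)
open Pool.Agent.PFD.D2 (Cdv FibG)
open Pool.Agent.PFD.D2b (FrR)
open Pool.Agent.PSS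
open Dm (cst)

theorem trv_one {K V B : Type} [Field K] [CommGroup V] [Ring B] [Algebra K B] {β : V →* B}
    {W : Subgroup V} {P : ℕ → (B →ₗ[K] B)} {m : ℕ → (B →ₗ[K] B →ₗ[K] B)} (hT : Trv β W P m)
    (x y : B) : m 1 x y = d1 (fun a => P 1 a) x y := by
  have h0 : m 0 x y = x * y := by
    have h := hT.pm 0 x y
    rw [Finset.Nat.antidiagonal_zero, Finset.sum_singleton, Finset.sum_singleton, hT.p0] at h
    exact h.symm
  have h1 := hT.pm 1 x y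
  have ha : (Finset.HasAntidiagonal.antidiagonal 1 : Finset (ℕ × ℕ)) = {(0, 1), (1, 0)} := rfl
  rw [ha, Finset.sum_pair (by simp), Finset.sum_pair (by simp), hT.p0] at h1
  simp only [LinearMap.id_coe, id_eq, h0] at h1
  rw [d1]
  have h2 : m 1 x y = x * (P 1) y + (P 1) x * y - (P 1) (x * y) := by
    rw [h1]
    abel
  rw [h2]
  abel

theorem gnq (kex : KexStmt) (drq : DrqStmt) (gvg : GvgStmt) (ekf : EkfStmt) (key : KeyStmt)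
    (tgw : TgwStmt) (dmr : DmrStmt) (dmf : DmfStmt) (h1w : H1wStmt) (rwt : RwtStmt)
    (fmx : FmxStmt) (fsr : FsrStmt) (red : RedStmt) (fox : FoxStmt) : GnqStmt := by
  classical
  intro ℓ _ R F V E A A₀ κ Ω _ _ _ _ _ _ _ _ _ _ _ _ _ _ _ _ _ _ _ _ φ W _ cv f α₀ lam₀ x₀ y₀
    b₀ c₀ α lam x y b c u hV hE hπ hCh hCl hSt hFr₀ hRF₀ hL hu
  let K := FractionRing R
  have hinj : Function.Injective (algebraMap R K) := IsFractionRing.injective R K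
  have hK : CharZero K := charZero_of_injective_algebraMap hinj
  let _ : Fintype (V ⧸ W) := Fintype.ofFinite _
  obtain ⟨C⟩ := kex R K V A κ Ω α lam x y b c hL.rf hL.fr
  obtain ⟨r, la, χ, xx, t, D, v, h, hDrd, hFov⟩ := drq ℓ R F V E A A₀ κ Ω φ W cv f α₀ lam₀ x₀ y₀
    b₀ c₀ α lam x y b c u hV hE hπ hCh hCl hSt hFr₀ hRF₀ hL hu
  obtain ⟨g, hFod⟩ := gvg ℓ R K F V A A₀ (K ⊗[R] A) κ Ω W cv f α lam x y b c C v h D hFov
  have hEkc := ekf ℓ R K F V A A₀ (K ⊗[R] A) κ Ω W cv f α₀ α lam x y b c C g h D hV hL.qa hCh.pw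
    hFod
  obtain ⟨P, m, hT, hP1, hIn⟩ := tgw R K V E A (K ⊗[R] A) κ Ω φ W α lam x y b c C u hCh.sw
    (stE_of φ hSt) hu g hFod.wbl hFod.one hFod.int
    (fun m₁ cc h1 h2 h3 => key ℓ R K F V E A A₀ (K ⊗[R] A) κ Ω φ W cv f α₀ lam₀ x₀ y₀ b₀ c₀ α lam
      x y b c u C r la χ xx t D g hV hE hπ hCh hCl hSt hFr₀ hRF₀ hL hu hDrd hFod.wbl hFod.one
      hFod.int hEkc m₁ cc h1 h2 h3)
  obtain ⟨D', hD'⟩ := dmr R K V A (K ⊗[R] A) W α C.i C.inj C.tow P m hT hIn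
  obtain ⟨D₀, hD₀⟩ := dmf R F V A A₀ W α cv f α₀ D' hL.qa
  have hH : H1P R (aw α W) := by
    intro δ hδ hδw
    obtain ⟨e, he1, he2⟩ := h1w R K V A (K ⊗[R] A) κ Ω W α lam x y b c C u hu δ hδ
      (fun w hw => hδw ⟨w, hw⟩)
    exact ⟨e, fun w => he1 w w.2, he2⟩
  have hRW := rwt R V A κ W α lam x y hL.rf
  obtain ⟨Λ, hΛs, hΛ0⟩ := fmx R W A (κ × (V ⧸ W)) (aw α W) D' lam _ _ hH hRW
  obtain ⟨y', hRF', -⟩ := fsr R W A (κ × (V ⧸ W)) (aw α W) D' lam _ _ Λ hRW hΛs hΛ0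
  obtain ⟨ψ, Λ₀, hψ, hψw, hψs, hΛ₀, hRF₀'⟩ := red R F V A A₀ (κ × (V ⧸ W)) W α cv f α₀ D'
    D₀ Λ _ y' hL.qa hD₀ hRF'
  obtain ⟨lf, G, hFoD⟩ := fox ℓ R K F V A A₀ (K ⊗[R] A) κ Ω W cv f α₀ α lam x y b c C D g h D₀
    (fun Z => D₀.sq Z 0) hCh.pw hL.qa hFod
    (fun a a' => ⟨D'.m 1 a a', by rw [hD', trv_one hT, hP1], (hD₀ 1 a a').symm⟩)
    (fun _ => rfl)
  exact ⟨D', D₀, ψ, Λ, Λ₀, κ × (V ⧸ W), inferInstance, _, y', hD₀, hψ, hψw, hψs, hRF', hΛ0, hΛ₀,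
    hRF₀', ⟨r, la, χ, xx, t, D, lf, G, hDrd, hFoD⟩, K, K ⊗[R] A, inferInstance, hK,
    inferInstance, inferInstance, inferInstance, inferInstance, C, P, m, hT, hD'⟩

end Pool.Agent.PST.H21
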