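import Pool.Agent.PST.StmtsNW

/-!
# Row pst:NCG, the components of a fixed vector of `N_W(A)` are fixed
-/

noncomputable section

namespace Pool.Agent.PST.H21

open Pool.Agent.PSS

theorem ncg : NcgStmt := by
  intro R V A B _ _ _ _ _ _ _ α W N P x hx
  classical
  have : Finite (MulAut W) :=
    Finite.of_injective (fun e : MulAut W => (fun w => e w : W → W)) (fun e e' h => by
      ext w
      exact congrArg Subtype.val (congrFun h w))
  letI : Fintype (MulAut W) := Fintype.ofFinite _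
  obtain ⟨f, hf, hfx⟩ := N.spn x
  rw [finsum_eq_sum_of_fintype] at hfx
  refine ⟨f, hf, ?_, by rw [finsum_eq_sum_of_fintype]; exact hfx⟩
  have hm : ∀ (p : V) (ε : MulAut W), α p * f ε * α p⁻¹ ∈ FxR (bw R α) (twW W ε) ∧
      N.β ε (α p * f ε * α p⁻¹) = N.nwh p * N.β ε (f ε) * N.nwh p⁻¹ := by
    intro p ε
    have h1 := Fx_mul α W 1 ε (al_mem_tw p W) (hf ε)
    have h2 := Fx_mul α W (1 * ε) 1 h1 (al_mem_tw p⁻¹ W)
    have h3 := N.mul 1 ε _ (al_mem_tw p W) _ (hf ε)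
    have h4 := N.mul (1 * ε) 1 _ h1 _ (al_mem_tw p⁻¹ W)
    rw [h3] at h4
    rw [one_mul, mul_one] at h2 h4
    exact ⟨h2, h4⟩
  intro ε p hp
  have h0 := N.ind (fun ε => α p * f ε * α p⁻¹ - f ε)
    (fun ε => Submodule.sub_mem _ (hm p ε).1 (hf ε)) (by
      rw [finsum_eq_sum_of_fintype]
      have h1 : ∀ ε ∈ (Finset.univ : Finset (MulAut W)), N.β ε (α p * f ε * α p⁻¹ - f ε) =
          N.nwh p * N.β ε (f ε) * N.nwh p⁻¹ - N.β ε (f ε) := by
        intro ε _
        rw [map_sub, (hm p ε).2]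
      rw [Finset.sum_congr rfl h1, Finset.sum_sub_distrib, ← Finset.sum_mul, ← Finset.mul_sum, hfx]
      have h2 := hx p hp
      have h3 : cw R N.nwh p x = N.nwh p * (x * N.nwh p⁻¹) := rfl
      rw [h3, ← mul_assoc] at h2
      rw [h2, sub_self]) ε
  rw [map_sub, (hm p ε).2, sub_eq_zero] at h0
  show N.nwh p * (N.β ε (f ε) * N.nwh p⁻¹) = N.β ε (f ε)
  rw [← mul_assoc, h0]

end Pool.Agent.PST.H21
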