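import Pool.Agent.PST.StmtsK4
import Pool.Agent.Helper80_PSS.ZRT
import Pool.Agent.Helper70_PSS.BQX

/-!
# Squad PST, row NDI: the value of a derivation at a central element congruent to an element of `F V`
-/

open scoped BigOperators

set_option autoImplicit false

noncomputable section

namespace Pool.Agent.PST.H21

open Pool.Agent.PSS
open Pool.Agent.PSS.S0 (IsBQ)

section

variable {F V A : Type} [Field F] [CommGroup V] [Ring A] [Algebra F A]

theorem cw_eq (α : V →* A) (u : V) (a : A) : cw F α u a = α u * (a * α u⁻¹) := rfl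

theorem fx_iff (α : V →* A) (a : A) :
    a ∈ FxR (cw F α) ⊤ ↔ ∀ v, α v * a = a * α v := by
  constructor
  · intro h
    exact S0.H80.comm_of_fx α a h
  · intro h v _
    show α v * (a * α v⁻¹) = a
    rw [← mul_assoc, h v, mul_assoc, ← map_mul, mul_inv_cancel, map_one, mul_one]

/-- a derivation with `D v = e v • v ζ` preserves the Brauer kernel -/
theorem der_bk (α : V →* A) (D : A →ₗ[F] A) (hD : Der D) (e : V → F) (ζ : A)
    (he : ∀ u v, e (u * v) = e u + e v) (hζ : ∀ c, c * ζ = ζ * c)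
    (h : ∀ v, D (α v) = e v • (α v * ζ)) (z : A) (hz : z ∈ BKR (cw F α) ⊤) :
    D z ∈ BKR (cw F α) ⊤ := by
  have he1 : e 1 = 0 := by
    have := he 1 1
    rw [mul_one] at this
    exact left_eq_add.1 this
  have hei : ∀ v, e v⁻¹ = - e v := by
    intro v
    have := he v v⁻¹
    rw [mul_inv_cancel, he1] at this
    exact eq_neg_of_add_eq_zero_right this.symm
  have hcw : ∀ (t : V) (m : A), D (cw F α t m) = cw F α t (D m) := by
    intro t m
    rw [cw_eq, cw_eq, hD, hD, h, h, hei]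
    have h1 : m * (-e t • (α t⁻¹ * ζ)) = - (e t • (m * α t⁻¹ * ζ)) := by
      rw [neg_smul, mul_neg, mul_smul_comm, mul_assoc]
    rw [h1, mul_add, mul_neg, smul_mul_assoc, mul_smul_comm]
    have h2 : α t * ζ * (m * α t⁻¹) = α t * (m * α t⁻¹ * ζ) := by
      rw [mul_assoc, ← hζ (m * α t⁻¹)]
    rw [h2]
    abel
  have hle : BKR (cw F α) ⊤ ≤ (BKR (cw F α) ⊤).comap D := by
    refine Submodule.span_le.2 ?_
    rintro _ ⟨P', S, m, hP, hS, hm, rfl⟩
    show D _ ∈ BKR (cw F α) ⊤
    rw [map_sum]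
    refine Submodule.subset_span ⟨P', S, D m, hP, hS, ?_, ?_⟩
    · intro s hs
      rw [← hcw, hm s hs]
    · exact Finset.sum_congr rfl fun s _ => hcw s m
  exact hle hz

theorem pow_bq (α : V →* A) {B : Type} [Ring B] [Algebra F B] (αB : V →* B) (β : A → B)
    (hB : IsBQ F α ⊤ αB β) (a : A) (ha : ∀ v, α v * a = a * α v) (n : ℕ) :
    β (a ^ n) = β a ^ n := by
  induction n with
  | zero => rw [pow_zero, pow_zero, hB.one]
  | succ n ih =>
    have hn : ∀ v, α v * a ^ n = a ^ n * α v := fun v => (Commute.pow_right (ha v) n)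
    rw [pow_succ, hB.mul _ ((fx_iff α _).2 hn) _ ((fx_iff α _).2 ha), ih, pow_succ]

theorem nil_sub (ℓ : ℕ) [Fact ℓ.Prime] [CharP F ℓ] (hV : IsPGroup ℓ V) (α : V →* A) (v : V) :
    IsNilpotent (α v - 1) := by
  rcases subsingleton_or_nontrivial A with hA | hA
  · exact ⟨1, Subsingleton.elim _ _⟩
  · have : CharP A ℓ := charP_of_injective_algebraMap (algebraMap F A).injective ℓ
    obtain ⟨m, hm⟩ := hV v
    refine ⟨ℓ ^ m, ?_⟩
    rw [sub_pow_char_pow_of_commute (p := ℓ) _ (Commute.one_right (α v)), one_pow, ← map_pow, hm, map_one,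
      sub_self]

end

theorem ndi (hN : NkbStmt) : NdiStmt := by
  intro ℓ _ F V E A K _ _ _ _ _ _ _ _ _ φ α lam x y e D p Y hV _ hCl hRF he hD hDv hY hYX
  obtain ⟨ζ, hζdef⟩ : ∃ ζ : A, ζ = rt x y 1 := ⟨_, rfl⟩
  rw [← hζdef] at hDv ⊢
  have h1fx : (1 : A) ∈ FxR (cw F α) ⊤ := (fx_iff α 1).2 fun v => by rw [mul_one, one_mul]
  have hζ : ∀ c, c * ζ = ζ * c := fun c => by
    rw [hζdef]
    exact S0.H80.zrt F V A K α lam x y hRF 1 h1fx c
  have hDY : ∀ a, D Y * a = a * D Y := by
    intro a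
    have h1 : D (Y * a) = D (a * Y) := by rw [hY]
    rw [hD, hD, hY (D a), add_comm (D a * Y)] at h1
    exact add_right_cancel h1
  refine ⟨hDY, ?_⟩
  obtain ⟨z, hz⟩ : ∃ z : A, z = D Y - (∑ v, p v * e v) • ζ := ⟨_, rfl⟩
  obtain ⟨s, hs⟩ : ∃ s : A, s = ∑ v, (p v * e v) • (α v - 1) := ⟨_, rfl⟩
  have hzc : ∀ a, z * a = a * z := by
    intro a
    rw [hz, sub_mul, mul_sub, hDY, smul_mul_assoc, mul_smul_comm, hζ]
  have hsc : ∀ v, α v * s = s * α v := by
    intro v
    rw [hs, Finset.mul_sum, Finset.sum_mul]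
    refine Finset.sum_congr rfl fun u _ => ?_
    rw [mul_smul_comm, smul_mul_assoc, mul_sub, sub_mul, ← map_mul, ← map_mul, mul_comm v u,
      mul_one, one_mul]
  have hsn : IsNilpotent s := by
    rw [hs]
    refine Commute.isNilpotent_sum (fun v _ => ?_) fun u v _ _ => ?_
    · exact (nil_sub (F := F) ℓ hV α v).smul _
    · refine (Commute.smul_left ?_ _).smul_right _
      refine Commute.sub_left ?_ (Commute.one_left _)
      refine Commute.sub_right ?_ (Commute.one_right _)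
      show α u * α v = α v * α u
      rw [← map_mul, ← map_mul, mul_comm u v]
  have hcn : IsNilpotent (s * ζ) :=
    Commute.isNilpotent_mul_right (show Commute s ζ from hζ s) hsn
  have hcc : ∀ v, α v * (s * ζ) = s * ζ * α v := by
    intro v
    rw [← mul_assoc, hsc, mul_assoc, hζ, mul_assoc]
  have hdiff : z - s * ζ ∈ BKR (cw F α) ⊤ := by
    have h1 := der_bk α D hD e ζ he.add hζ hDv _ hYX
    have h2 : D (Y - Xe α p) = z - s * ζ := by
      rw [map_sub, Xe, map_sum, hz, hs, Finset.sum_mul, Finset.sum_smul, sub_sub,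
        ← Finset.sum_add_distrib]
      congr 1
      refine Finset.sum_congr rfl fun v _ => ?_
      rw [map_smul, hDv, smul_smul, smul_mul_assoc, sub_mul, one_mul, smul_sub]
      abel
    rw [h2] at h1
    exact h1
  obtain ⟨B, _, _, αB, β, hB⟩ := S0.H70.bqx F V A α ⊤
  have hz' : z ∈ FxR (cw F α) ⊤ := (fx_iff α z).2 fun v => (hzc _).symm
  have hc' : s * ζ ∈ FxR (cw F α) ⊤ := (fx_iff α _).2 hcc
  have hβ : β z = β (s * ζ) := by
    have h1 : β (z - s * ζ) = 0 := (hB.ker _ (Submodule.sub_mem _ hz' hc')).2 hdiff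
    have h2 := hB.add _ (Submodule.sub_mem _ hz' hc') _ hc'
    rw [sub_add_cancel, h1, zero_add] at h2
    exact h2
  obtain ⟨n, hn⟩ := hcn
  have h0 : β (z ^ n) = 0 := by
    rw [pow_bq α αB β hB z fun v => (hzc _).symm, hβ, ← pow_bq α αB β hB _ hcc, hn]
    exact (hB.ker 0 (Submodule.zero_mem _)).2 (Submodule.zero_mem _)
  have hzn : ∀ v, α v * z ^ n = z ^ n * α v := fun v =>
    Commute.pow_right (show Commute (α v) z from (hzc _).symm) n
  rw [← hz]
  exact hN F V E A φ α hCl z hzc n ((hB.ker _ ((fx_iff α _).2 hzn)).1 h0)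

end Pool.Agent.PST.H21
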