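import Pool.Agent.PST.StmtsUC

/-!
# Squad PST, row NIA: the augmentation ideal of a finite ell-group in characteristic ell is nilpotent
-/

set_option autoImplicit false

noncomputable section

namespace Pool.Agent.PST.UC.H21

open Pool.Agent.PST.UC

variable {R N B : Type} [CommRing R] [CommGroup N] [Ring B] [Algebra R B]

/-- the augmentation ideal of the group ring -/
def aug (R N : Type) [CommRing R] [CommGroup N] : Ideal (MonoidAlgebra R N) :=
  Ideal.span (Set.range fun n : N => MonoidAlgebra.of R N n - 1)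

theorem aug_nil (ℓ : ℕ) [Fact ℓ.Prime] [Finite N] (h0 : (ℓ : R) = 0) (hN : IsPGroup ℓ N) :
    ∃ k : ℕ, aug R N ^ k = ⊥ := by
  have hfg : (aug R N).FG := Submodule.fg_span (Set.finite_range _)
  have h1 : IsNilpotent (aug R N) := by
    rw [Ideal.FG.isNilpotent_iff_le_nilradical hfg]
    refine Ideal.span_le.2 ?_
    rintro _ ⟨n, rfl⟩
    show _ ∈ nilradical _
    rw [mem_nilradical]
    rcases subsingleton_or_nontrivial (MonoidAlgebra R N) with hS | hS
    · exact ⟨1, Subsingleton.elim _ _⟩
    · have hc : ((ℓ : ℕ) : MonoidAlgebra R N) = 0 := by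
        have : ((ℓ : ℕ) : MonoidAlgebra R N) = algebraMap R (MonoidAlgebra R N) (ℓ : R) := by
          rw [map_natCast]
        rw [this, h0, map_zero]
      have : CharP (MonoidAlgebra R N) ℓ :=
        (CharP.charP_iff_prime_eq_zero (Fact.out : ℓ.Prime)).2 hc
      obtain ⟨m, hm⟩ := hN n
      refine ⟨ℓ ^ m, ?_⟩
      rw [sub_pow_char_pow, one_pow, ← map_pow, hm, map_one, sub_self]
  obtain ⟨k, hk⟩ := h1
  exact ⟨k, by rw [hk]; rfl⟩

/-- the map of the group ring -/
def th (ν : N →* B) : MonoidAlgebra R N →ₐ[R] B := MonoidAlgebra.lift R B N ν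

theorem th_of (ν : N →* B) (n : N) :
    th (R := R) ν (MonoidAlgebra.of R N n - 1) = ν n - 1 := by
  rw [map_sub, map_one, th, MonoidAlgebra.lift_of]

theorem th_comm (ν : N →* B) (hν : ∀ n b, ν n * b = b * ν n) (s : MonoidAlgebra R N) (b : B) :
    th (R := R) ν s * b = b * th (R := R) ν s := by
  induction s using MonoidAlgebra.induction_on with
  | of g => rw [th, MonoidAlgebra.lift_of, hν]
  | add f g hf hg => rw [map_add, add_mul, mul_add, hf, hg]
  | smul r f hf => rw [map_smul, smul_mul_assoc, mul_smul_comm, hf]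

/-- the submodule generated by the products -/
def Q (ν : N →* B) (k : ℕ) (J : Submodule R B) : Submodule R B :=
  Submodule.span R {y | ∃ s ∈ aug R N ^ k, ∃ b ∈ J, y = th (R := R) ν s * b}

theorem q_bot (ν : N →* B) {k : ℕ} (hk : aug R N ^ k = ⊥) (J : Submodule R B) :
    Q ν k J = ⊥ := by
  rw [Q, Submodule.span_eq_bot]
  rintro _ ⟨s, hs, b, -, rfl⟩
  rw [hk, Ideal.mem_bot] at hs
  rw [hs, map_zero, zero_mul]

theorem aug_le (ν : N →* B) (J J' : Submodule R B) (k : ℕ) (h : J ≤ Q ν k J') :
    Aug R ν J ≤ Q ν (k + 1) J' := by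
  refine Submodule.span_le.2 ?_
  rintro _ ⟨n, b, hb, rfl⟩
  have h1 : Q ν k J' ≤ (Q ν (k + 1) J').comap (LinearMap.mulLeft R (ν n - 1)) := by
    refine Submodule.span_le.2 ?_
    rintro _ ⟨s, hs, c, hc, rfl⟩
    refine Submodule.subset_span ⟨(MonoidAlgebra.of R N n - 1) * s, ?_, c, hc, ?_⟩
    · rw [pow_succ']
      exact Ideal.mul_mem_mul (Ideal.subset_span ⟨n, rfl⟩) hs
    · show (ν n - 1) * (th (R := R) ν s * c) = th (R := R) ν _ * c
      rw [map_mul, th_of, mul_assoc]
  exact h1 (h hb)

theorem iter_le (ν : N →* B) (J : Submodule R B) (k : ℕ) : (Aug R ν)^[k] J ≤ Q ν k J := by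
  induction k with
  | zero =>
    intro x hx
    refine Submodule.subset_span ⟨1, ?_, x, hx, ?_⟩
    · rw [pow_zero, Ideal.one_eq_top]
      trivial
    · rw [map_one, one_mul]
  | succ k ih =>
    rw [Function.iterate_succ_apply']
    exact aug_le ν _ J k ih

theorem aug_mono (ν : N →* B) : Monotone (Aug R ν) := by
  intro J J' h
  refine Submodule.span_mono ?_
  rintro _ ⟨n, b, hb, rfl⟩
  exact ⟨n, b, h hb, rfl⟩

theorem nia : NiaStmt := by
  intro ℓ _ R N B _ _ _ _ _ ν h0 hN hν
  obtain ⟨k, hk⟩ := aug_nil (R := R) (N := N) ℓ h0 hN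
  refine ⟨⟨k, ?_⟩, ?_, ?_⟩
  · rw [eq_bot_iff, ← q_bot ν hk ⊤]
    exact iter_le ν ⊤ k
  · intro J hJ
    have h1 : ∀ i, J ≤ (Aug R ν)^[i] J := by
      intro i
      induction i with
      | zero => exact le_rfl
      | succ i ih =>
        rw [Function.iterate_succ_apply']
        exact hJ.trans (aug_mono ν ih)
    rw [eq_bot_iff, ← q_bot ν hk J]
    exact (h1 k).trans (iter_le ν J k)
  · intro x hx
    refine ⟨k, ?_⟩
    have h1 : ∀ i, x ^ i ∈ Q ν i (⊤ : Submodule R B) := by
      intro i
      induction i with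
      | zero =>
        refine Submodule.subset_span ⟨1, ?_, 1, trivial, ?_⟩
        · rw [pow_zero, Ideal.one_eq_top]
          trivial
        · rw [pow_zero, map_one, one_mul]
      | succ i ih =>
        have hx' : Aug R ν ⊤ ≤ (Q ν (i + 1) ⊤).comap (LinearMap.mulRight R (x ^ i)) := by
          refine Submodule.span_le.2 ?_
          rintro _ ⟨n, b, -, rfl⟩
          have h2 : Q ν i ⊤ ≤ (Q ν (i + 1) ⊤).comap (LinearMap.mulLeft R ((ν n - 1) * b)) := by
            refine Submodule.span_le.2 ?_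
            rintro _ ⟨s, hs, c, -, rfl⟩
            refine Submodule.subset_span ⟨(MonoidAlgebra.of R N n - 1) * s, ?_, b * c,
              trivial, ?_⟩
            · rw [pow_succ']
              exact Ideal.mul_mem_mul (Ideal.subset_span ⟨n, rfl⟩) hs
            · show (ν n - 1) * b * (th (R := R) ν s * c) = th (R := R) ν _ * (b * c)
              rw [map_mul, th_of, mul_assoc, ← mul_assoc b, ← th_comm ν hν s b]
              simp only [mul_assoc]
          exact h2 ih
        rw [pow_succ']
        exact hx' hx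
    have h3 := h1 k
    rw [q_bot ν hk ⊤] at h3
    exact (Submodule.mem_bot R).1 h3

end Pool.Agent.PST.UC.H21
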