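import Pool.Agent.PST.StmtsUD
import Pool.Agent.Helper41_PSS.PRQ
import Pool.Agent.Helper91_PSS.RES
import Pool.Agent.Helper84_PST.QRF

/-!
# Squad PST, row PRT: the reduction `As(W) → A(W)` (edit of Helper41_PSS/PRQ.lean)
-/

set_option autoImplicit false

open scoped BigOperators TensorProduct PowerSeries

noncomputable section

namespace Pool.Agent.PST.UC.H21

open Pool.Agent.PFC (tw IsTv)
open Pool.Agent.PFD.D2b (FrR)
open Pool.Agent.PSS
open Pool.Agent.PSS.S0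
open Pool.Agent.PSS.S3.H41 (bq_zero bq_sub bq_eq fx_of_comm fx_mul fx_one fx_al q_smul)

theorem prt : PrtStmt := by
  intro ℓ _ F V E A As B Bs _ _ _ _ _ _ _ _ _ _ _ _ _ α W _ ψ γ q αB β γB βs hV hper hsc0
    hsurj0 hker0 hqw0 hB hBs
  have hW : IsPGroup ℓ W := hV.to_subgroup W
  have htop : (⊤ : Subgroup W).map W.subtype = W := by
    rw [← MonoidHom.range_eq_map, Subgroup.range_subtype]
  -- the groups
  have hqw : ∀ w : W, q (γ w) = (α.comp W.subtype) w := hqw0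
  have hfxA : FxR (cw F (α.comp W.subtype)) ⊤ = FxR (cw F α) W := by
    have := (Pool.Agent.PSS.H91.res F V A α W ⊤).1
    rwa [htop] at this
  have hbkA : BKR (cw F (α.comp W.subtype)) ⊤ = BKR (cw F α) W := by
    have := (Pool.Agent.PSS.H91.res F V A α W ⊤).2
    rwa [htop] at this
  have hqfx : ∀ a ∈ FxR (cw F⟦X⟧ γ) ⊤, q a ∈ FxR (cw F α) W := by
    intro a ha
    rw [← hfxA]
    exact (S3.H41.qbk F W A As (α.comp W.subtype) γ q hsc0 hqw ⊤).1 a ha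
  have hqbk : ∀ a ∈ BKR (cw F⟦X⟧ γ) ⊤, q a ∈ BKR (cw F α) W := by
    intro a ha
    rw [← hbkA]
    exact (S3.H41.qbk F W A As (α.comp W.subtype) γ q hsc0 hqw ⊤).2 a ha
  have hQ := Pool.Agent.PST.H84.qrf ℓ F W E A As ψ (α.comp W.subtype) γ q hW hper hsc0 hsurj0
    hker0 hqw ⊤
  -- the map
  choose s hs1 hs2 using hBs.surj
  have hwd : ∀ a ∈ FxR (cw F⟦X⟧ γ) ⊤, ∀ a' ∈ FxR (cw F⟦X⟧ γ) ⊤, βs a = βs a' →
      β (q a) = β (q a') := by
    intro a ha a' ha' h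
    rw [bq_eq hBs ha ha'] at h
    rw [bq_eq hB (hqfx a ha) (hqfx a' ha'), ← map_sub]
    exact hqbk _ h
  let Qf : Bs → B := fun b => β (q (s b))
  have hQf : ∀ a ∈ FxR (cw F⟦X⟧ γ) ⊤, Qf (βs a) = β (q a) := by
    intro a ha
    exact hwd _ (hs1 _) a ha (hs2 _)
  have hQadd : ∀ b b', Qf (b + b') = Qf b + Qf b' := by
    intro b b'
    conv_lhs => rw [← hs2 b, ← hs2 b', ← hBs.add _ (hs1 b) _ (hs1 b'),
      hQf _ (Submodule.add_mem _ (hs1 b) (hs1 b')), map_add,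
      hB.add _ (hqfx _ (hs1 b)) _ (hqfx _ (hs1 b'))]
  have hQmul : ∀ b b', Qf (b * b') = Qf b * Qf b' := by
    intro b b'
    conv_lhs => rw [← hs2 b, ← hs2 b', ← hBs.mul _ (hs1 b) _ (hs1 b'),
      hQf _ (fx_mul (hs1 b) (hs1 b')), map_mul,
      hB.mul _ (hqfx _ (hs1 b)) _ (hqfx _ (hs1 b'))]
  have hQ1 : Qf 1 = 1 := by
    rw [← hBs.one, hQf 1 fx_one, map_one, hB.one]
  have hQ0 : Qf 0 = 0 := by
    rw [← bq_zero hBs, hQf 0 (Submodule.zero_mem _), map_zero, bq_zero hB]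
  let qB : Bs →+* B :=
    { toFun := Qf, map_one' := hQ1, map_mul' := hQmul, map_zero' := hQ0, map_add' := hQadd }
  have hqB : ∀ a ∈ FxR (cw F⟦X⟧ γ) ⊤, qB (βs a) = β (q a) := hQf
  have hsc : ∀ r : F⟦X⟧, qB (algebraMap F⟦X⟧ Bs r) =
      algebraMap F B (PowerSeries.constantCoeff r) := by
    intro r
    rw [Algebra.algebraMap_eq_smul_one, ← hBs.one, ← hBs.smul r 1 fx_one,
      hqB _ (Submodule.smul_mem _ _ fx_one), q_smul hsc0, map_one, hB.smul _ 1 fx_one, hB.one,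
      ← Algebra.algebraMap_eq_smul_one]
  refine ⟨qB, hqB, hsc, ?_, ?_, ?_⟩
  · intro z
    obtain ⟨a, ha, rfl⟩ := hB.surj z
    rw [← hfxA] at ha
    obtain ⟨a', ha', rfl⟩ := hQ.1 a ha
    exact ⟨βs a', hqB a' ha'⟩
  · intro z hz
    obtain ⟨a, ha, rfl⟩ := hBs.surj z
    rw [hqB a ha, hB.ker _ (hqfx a ha), ← hbkA] at hz
    obtain ⟨m, hm, hm'⟩ := hQ.2 a ha hz
    refine ⟨βs m, ?_⟩
    rw [← hBs.smul _ _ hm, bq_eq hBs ha (Submodule.smul_mem _ _ hm)]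
    exact hm'
  · intro w
    rw [← hBs.om, hqB _ (fx_al w), hqw0, hB.om]

end Pool.Agent.PST.UC.H21
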